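import Pool.Agent.H20.AB.Bas

/-!
Row SMD: subvarieties of small degree.
-/

set_option linter.unusedSectionVars false

namespace Pool.AB4

open AlgebraicGeometry CategoryTheory Order Filter Topology

variable {Y : Scheme.{0}} [IsIntegral Y] [IsLocallyNoetherian Y] {s : Y ⟶ Spec (.of ℂ)}

/-- ROW SMD: subvarieties of small degree. -/
theorem small_deg (hN : Numbers s) {M H : Pic Y} (hM : Nef s M) (hH : Ample H) {m : ℕ}
    (hm : 1 ≤ m) {y : Y} (hy : 1 ≤ height y) (h : dg s y (m • M + H) < m) :
    ∀ C : Cv Y, y ⤳ C.1 → i1 s C.1 M = 0 := by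
  have hHn := nef_of_ample hN hH
  have hL := ample_add hN hM hH m
  have hm' : (1 : ℤ) ≤ m := by exact_mod_cast hm
  obtain ⟨r, hr, hyr⟩ := height_cases hN y
  have key : ∀ a b : ℤ, 0 ≤ a → (dg s y (m • M + H) = ((b + m * a : ℤ) : ℝ)) → 0 ≤ b → a = 0 := by
    intro a b ha he hb
    rw [he] at h
    have h1 : b + m * a < m := by exact_mod_cast h
    by_contra h0
    have h2 : 1 ≤ a := by omega
    nlinarith
  interval_cases r
  · rw [hyr] at hy
    exact absurd hy (by decide)
  · intro C hC
    have hCy : C.1 = y := eq_of_height hC (n := 1) (by exact_mod_cast hyr) (by exact_mod_cast C.2)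
    rw [hCy]
    have hyr' : height y = 1 := by exact_mod_cast hyr
    have hsp := i1_diag hN hyr' hL
    have h0 : 0 ≤ i1 s y M := by have := hM C; rwa [hCy] at this
    have h1 : 0 ≤ i1 s y H := by have := hHn C; rwa [hCy] at this
    refine key _ (i1 s y H) h0 ?_ h1
    rw [← hsp, i1_expand hN hyr']
    push_cast
    ring
  · have hyr' : height y = 2 := by exact_mod_cast hyr
    refine hN.zero2 y hyr' M H hM hH ?_
    have hsp := i2_diag hN hyr' hL
    rw [i2_expand hN hyr'] at hsp
    have h0 := hN.nef2 y hyr' M M hM hM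
    have h1 := hN.nef2 y hyr' M H hM hHn
    have h2 := hN.nef2 y hyr' H H hHn hHn
    refine key _ ((m : ℤ) ^ 2 * i2 s y M M + m * i2 s y M H + i2 s y H H) h1 ?_ (by positivity)
    rw [← hsp]
    push_cast
    ring
  · have hyr' : height y = 3 := by exact_mod_cast hyr
    refine hN.zero3 y hyr' M H hM hH ?_
    have hsp := i3_diag hN hyr' hL
    rw [i3_expand hN hyr'] at hsp
    have h0 := hN.nef3 y hyr' M M M hM hM hM
    have h1 := hN.nef3 y hyr' M M H hM hM hHn
    have h2 := hN.nef3 y hyr' M H H hM hHn hHn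
    have h3 := hN.nef3 y hyr' H H H hHn hHn hHn
    refine key _ ((m : ℤ) ^ 3 * i3 s y M M M + 3 * m ^ 2 * i3 s y M M H + 2 * m * i3 s y M H H +
      i3 s y H H H) h2 ?_ (by positivity)
    rw [← hsp]
    push_cast
    ring
  · have hyr' : height y = 4 := by exact_mod_cast hyr
    have hyg := eq_generic_of_height hN hyr'
    rw [hyg] at key
    intro C _
    refine hN.zero4 M H hM hH ?_ C
    have hsp := i4_diag hN hL
    rw [i4_expand hN] at hsp
    have h0 := hN.nef4 M M M M hM hM hM hM
    have h1 := hN.nef4 M M M H hM hM hM hHn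
    have h2 := hN.nef4 M M H H hM hM hHn hHn
    have h3 := hN.nef4 M H H H hM hHn hHn hHn
    have h4 := hN.nef4 H H H H hHn hHn hHn hHn
    refine key _ ((m : ℤ) ^ 4 * i4 s M M M M + 4 * m ^ 3 * i4 s M M M H +
      6 * m ^ 2 * i4 s M M H H + 3 * m * i4 s M H H H + i4 s H H H H) h3 ?_ (by positivity)
    rw [← hsp]
    push_cast
    ring

end Pool.AB4
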