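import Pool.Agent.H20.AB.Bas
import Pool.Agent.H20.AB.SMD

/-!
Row NU2B: prime divisors `p` with `M ^ 2 H p = 0`, the flag through `p`.
-/

set_option linter.unusedSectionVars false

namespace Pool.AB4

open AlgebraicGeometry CategoryTheory Order Filter Topology

variable {Y : Scheme.{0}} [IsIntegral Y] [IsLocallyNoetherian Y] {s : Y ⟶ Spec (.of ℂ)}

/-- The statement of the row COV. -/
def CoverStmt (s : Y ⟶ Spec (.of ℂ)) : Prop :=
  ∀ (w : Y), 1 ≤ height w → ∀ L : Pic Y, Ample L → ∀ α : ℝ, 0 < α → ∀ B : Set Y, IsClosed B →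
    w ∉ B → (∀ x : Pt Y, w ⤳ x.1 → x.1 ∉ B → ¬ Sesh s w x L α) →
    ∃ r : ℕ, 1 ≤ r ∧ (r : ℕ∞) ≤ height w ∧ ∃ Z : Set Y, IsClosed Z ∧ w ∈ Z ∧
      ∀ x : Pt Y, x.1 ∈ Z → ∃ y : Y, w ⤳ y ∧ y ⤳ x.1 ∧ height y = r ∧
        dg s y L ≤ (r * α) ^ r

/-- The statement of the row WID3. -/
def Width3Stmt (s : Y ⟶ Spec (.of ℂ)) : Prop :=
  ∀ p : Pr Y, ∃ B : Set Y, IsClosed B ∧ p.1 ∉ B ∧ ∀ x : Pt Y, p.1 ⤳ x.1 → x.1 ∉ B →
      ∀ L : Pic Y, Ample L → ∀ β μ : ℝ, 0 ≤ β → 0 ≤ μ →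
      (∀ (D : Div Y) (b : ℕ), Effective D → D p = 0 → cl D + b • clp p = L →
        (b : ℝ) ≤ β ∧ (mul p.1 x.1 D : ℝ) ≤ μ) →
      24 * (h0 s L : ℝ) - dg s (genericPoint Y) L ≤
        24 * ((μ + 1) ^ 3 + 3 * (β + 1) * (μ + 1) ^ 2)

/-- The degree for an ample line bundle is at least one. -/
theorem one_le_dg (hN : Numbers s) {y : Y} (hy : 1 ≤ height y) {a : Pic Y} (ha : Ample a) :
    1 ≤ dg s y a := by
  have hpos := hN.pos y a ha
  obtain ⟨r, hr, hyr⟩ := height_cases hN y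
  have key : ∀ z : ℤ, (z : ℝ) = dg s y a → 1 ≤ dg s y a := by
    intro z hz
    rw [← hz] at hpos ⊢
    have : 0 < z := by exact_mod_cast hpos
    exact_mod_cast this
  interval_cases r
  · rw [hyr] at hy
    exact absurd hy (by decide)
  · exact key _ (i1_diag hN (by exact_mod_cast hyr) ha)
  · exact key _ (i2_diag hN (by exact_mod_cast hyr) ha)
  · exact key _ (i3_diag hN (by exact_mod_cast hyr) ha)
  · have hyg := eq_generic_of_height hN (by exact_mod_cast hyr)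
    rw [hyg] at key ⊢
    exact key _ (i4_diag hN ha)

/-- A subvariety of positive dimension has a closed point outside a proper closed subset. -/
theorem exists_point (hN : Numbers s) (hP : Positivity s) {a : Pic Y} (ha : Ample a) {w : Y}
    (hw : 1 ≤ height w) {B : Set Y} (hB : IsClosed B) (hwB : w ∉ B) :
    ∃ x : Pt Y, w ⤳ x.1 ∧ x.1 ∉ B := by
  obtain ⟨x, h1, h2, _⟩ := hP.ekl w a hw ha (1 / 4) (by norm_num) B hB hwB (by
    intro y r _ hyr hr _
    have h4 := height_le hN y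
    rw [hyr] at h4
    have h4' : r ≤ 4 := by exact_mod_cast h4
    have hy : 1 ≤ height y := by rw [hyr]; exact_mod_cast hr
    refine le_trans ?_ (one_le_dg hN hy ha)
    interval_cases r <;> norm_num)
  exact ⟨x, h1, h2⟩

theorem sesh_zero (hN : Numbers s) {a : Pic Y} (ha : Ample a) (w : Y) (x : Pt Y) :
    Sesh s w x a 0 := by
  intro C _ _
  rw [zero_mul]
  exact_mod_cast nef_of_ample hN ha C

/-- The restriction of an effective divisor which does not contain the prime `q`. -/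
theorem i3_nonneg_of_eff (hN : Numbers s) (hP : Positivity s) {a : Pic Y} (ha : Ample a)
    (q : Pr Y) {D : Div Y} (hD : Effective D) (hq : D q = 0) : 0 ≤ i3 s q.1 (cl D) a a := by
  obtain ⟨x, hx, _⟩ := exists_point hN hP ha (w := q.1) (by rw [height_prime hN]; decide)
    isClosed_empty (by simp)
  have := hP.seshadri3 q x a 0 hx ha le_rfl (sesh_zero hN ha _ _) D hD hq
  rw [zero_pow (by norm_num), mul_zero] at this
  exact_mod_cast this

/-- An effective divisor has nonnegative degree. -/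
theorem i4_nonneg_of_eff (hN : Numbers s) (hP : Positivity s) {a : Pic Y} (ha : Ample a)
    {D : Div Y} (hD : Effective D) : 0 ≤ i4 s (cl D) a a a := by
  obtain ⟨x, hx, _⟩ := exists_point hN hP ha (w := genericPoint Y)
    (by rw [height_generic hN]; decide) isClosed_empty (by simp)
  have := hP.seshadri4 x a 0 ha le_rfl (sesh_zero hN ha _ _) D hD
  rw [zero_pow (by norm_num), mul_zero] at this
  exact_mod_cast this

theorem nu2B_num {C1 C2 c : ℝ} (hC1 : 0 ≤ C1) (hC2 : 0 ≤ C2) (hc : 0 < c) (m₀ : ℕ) :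
    ∃ N : ℕ, 2 ≤ N ∧ m₀ ≤ N ^ 3 ∧
      24 * ((16 * C2 * N + 1) ^ 3 + 3 * (C1 * N ^ 3 + 1) * (16 * C2 * N + 1) ^ 2) <
        c * (N : ℝ) ^ 6 := by
  obtain ⟨D, hD⟩ : ∃ D : ℝ, D = 16 * C2 + 1 := ⟨_, rfl⟩
  have hD1 : 1 ≤ D := by rw [hD]; linarith
  obtain ⟨F, hF⟩ : ∃ F : ℝ, F = 24 * (D ^ 3 + 3 * (C1 + 1) * D ^ 2) := ⟨_, rfl⟩
  have hF0 : 0 < F := by rw [hF]; positivity
  obtain ⟨N, hN⟩ := exists_nat_gt (max (F / c) (max 2 m₀))
  have h1 : F / c < N := lt_of_le_of_lt (le_max_left _ _) hN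
  have h2 : (2 : ℝ) < N := lt_of_le_of_lt ((le_max_left _ _).trans (le_max_right _ _)) hN
  have h3 : (m₀ : ℝ) < N := lt_of_le_of_lt ((le_max_right _ _).trans (le_max_right _ _)) hN
  have h2' : 2 ≤ N := by
    have : 2 < N := by exact_mod_cast h2
    omega
  have h3' : m₀ ≤ N := by
    have : m₀ < N := by exact_mod_cast h3
    omega
  refine ⟨N, h2', h3'.trans (Nat.le_self_pow (by norm_num) N), ?_⟩
  have hN0 : (0 : ℝ) < N := by linarith
  have hN1 : (1 : ℝ) ≤ N := by linarith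
  have e1 : 16 * C2 * N + 1 ≤ D * N := by rw [hD]; nlinarith
  have e0 : 0 ≤ 16 * C2 * N + 1 := by positivity
  have hN3 : (1 : ℝ) ≤ N ^ 3 := one_le_pow₀ hN1
  have e2 : C1 * N ^ 3 + 1 ≤ (C1 + 1) * N ^ 3 := by nlinarith
  have e3 : (16 * C2 * N + 1) ^ 3 ≤ D ^ 3 * N ^ 3 := by
    rw [← mul_pow]; exact pow_le_pow_left₀ e0 e1 3
  have e4 : (16 * C2 * N + 1) ^ 2 ≤ D ^ 2 * N ^ 2 := by
    rw [← mul_pow]; exact pow_le_pow_left₀ e0 e1 2
  have e5 : (C1 * N ^ 3 + 1) * (16 * C2 * N + 1) ^ 2 ≤ ((C1 + 1) * N ^ 3) * (D ^ 2 * N ^ 2) :=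
    mul_le_mul e2 e4 (by positivity) (by positivity)
  have e6 : (N : ℝ) ^ 3 ≤ N ^ 5 := pow_le_pow_right₀ hN1 (by norm_num)
  have e7 : D ^ 3 * (N : ℝ) ^ 3 ≤ D ^ 3 * N ^ 5 := mul_le_mul_of_nonneg_left e6 (by positivity)
  have e8 : 24 * ((16 * C2 * N + 1) ^ 3 + 3 * (C1 * N ^ 3 + 1) * (16 * C2 * N + 1) ^ 2) ≤
      F * N ^ 5 := by
    rw [hF]
    nlinarith
  have e9 : F * (N : ℝ) ^ 5 < c * N ^ 6 := by
    rw [div_lt_iff₀ hc] at h1
    have : F * (N : ℝ) ^ 5 < (N * c) * N ^ 5 := mul_lt_mul_of_pos_right h1 (by positivity)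
    calc F * (N : ℝ) ^ 5 < (N * c) * N ^ 5 := this
      _ = c * N ^ 6 := by ring
  linarith

/-- ROW NU2B. -/
theorem nu2B_of (hN : Numbers s) (hP : Positivity s) (hcov : CoverStmt s) (hw3 : Width3Stmt s)
    {M H : Pic Y} (hM : Nef s M) (hH : Ample H)
    (h3 : ∀ a, i4 s M M M a = 0) (hexc : Excess s M H 2)
    (I : Pic Y → Pic Y → Pic Y → ℤ) (hI0 : I M M H = 0) :
    ∃ (L : Pic Y) (d : ℝ), Ample L ∧
      (∀ (y : Y), 1 ≤ height y → dg s y L ≤ d → ∀ C : Cv Y, y ⤳ C.1 → i1 s C.1 M = 0) ∧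
      ∀ p q : Pr Y, p ≠ q → i3 s p.1 = I → i3 s q.1 = I →
        ∀ x : Pt Y, p.1 ⤳ x.1 → ∃ y : Y, y ⤳ x.1 ∧ 1 ≤ height y ∧ height y ≤ 3 ∧
          dg s y L ≤ d := by
  obtain ⟨c, hc, m₀, hexc⟩ := hexc
  have hHn := nef_of_ample hN hH
  obtain ⟨C1, hC1⟩ : ∃ C1 : ℝ, C1 = |(i4 s M H H H : ℝ)| + |(i4 s H H H H : ℝ)| := ⟨_, rfl⟩
  obtain ⟨C2, hC2⟩ : ∃ C2 : ℝ, C2 = 3 * |(I M H H : ℝ)| + |(I H H H : ℝ)| := ⟨_, rfl⟩
  have hC1' : 0 ≤ C1 := by rw [hC1]; positivity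
  have hC2' : 0 ≤ C2 := by rw [hC2]; positivity
  obtain ⟨N, hN2, hNm, hNbig⟩ := nu2B_num hC1' hC2' hc m₀
  have hN2' : (2 : ℝ) ≤ N := by exact_mod_cast hN2
  have hN0 : (0 : ℝ) < N := by linarith
  obtain ⟨m, hm⟩ : ∃ m : ℕ, m = N ^ 3 := ⟨_, rfl⟩
  have hmr : (m : ℝ) = (N : ℝ) ^ 3 := by rw [hm]; push_cast; ring
  have hm1 : 1 ≤ m := by rw [hm]; exact Nat.one_le_pow _ _ (by omega)
  have hm1' : (1 : ℝ) ≤ m := by exact_mod_cast hm1
  obtain ⟨L, hLdef⟩ : ∃ L : Pic Y, L = m • M + H := ⟨_, rfl⟩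
  have hL : Ample L := by rw [hLdef]; exact ample_add hN hM hH m
  obtain ⟨d, hd⟩ : ∃ d : ℝ, d = (3 * (N / 4)) ^ 3 := ⟨_, rfl⟩
  have hdm : d < m := by
    rw [hd, hmr]
    have : (0 : ℝ) < N ^ 3 := by positivity
    nlinarith
  refine ⟨L, d, hL, ?_, ?_⟩
  · intro y hy hyd
    rw [hLdef] at hyd
    exact small_deg hN hM hH hm1 hy (lt_of_le_of_lt hyd hdm)
  · intro p q hpq hIp hIq x hpx
    have hp3 := height_prime hN p
    have hp1 : 1 ≤ height p.1 := by rw [hp3]; decide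
    -- the self-intersection of `p` is nonnegative
    have hself : 0 ≤ i3 s p.1 (clp p) L L := by
      have h1 := i3_nonneg_of_eff hN hP hL q (D := Finsupp.single p 1)
        (fun r => by
          classical
          rw [Finsupp.single_apply]
          split_ifs <;> norm_num)
        (by classical rw [Finsupp.single_apply, if_neg hpq])
      rw [hIq, ← hIp] at h1
      exact h1
    -- the numbers
    have hMMM : i3 s p.1 M M M = 0 := by
      rw [← hN.prime, i4_s1 hN, i4_s2 hN, i4_s3 hN]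
      exact h3 _
    have hMMH : i3 s p.1 M M H = 0 := by rw [hIp]; exact hI0
    have hLLL : (i3 s p.1 L L L : ℝ) ≤ C2 * m := by
      have h1 := i3_expand hN hp3 M H m
      rw [← hLdef, hMMM, hMMH, hIp] at h1
      rw [hIp, h1, hC2]
      push_cast
      have e1 := le_abs_self (I M H H : ℝ)
      have e2 := le_abs_self (I H H H : ℝ)
      have e3 := abs_nonneg (I H H H : ℝ)
      nlinarith
    obtain ⟨B, hB, hpB, hwid⟩ := hw3 p
    have hLHHH : (i4 s L H H H : ℝ) ≤ C1 * m := by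
      rw [hLdef, i4_add1 hN, i4_nsmul1 hN]
      push_cast
      rw [hC1]
      have e1 := le_abs_self (i4 s M H H H : ℝ)
      have e2 := le_abs_self (i4 s H H H H : ℝ)
      have e3 := abs_nonneg (i4 s H H H H : ℝ)
      nlinarith
    have hpH : (1 : ℝ) ≤ i4 s (clp p) H H H := by
      rw [hN.prime, i3_diag hN hp3 hH]
      exact one_le_dg hN hp1 hH
    obtain ⟨r, hr1, hr3, Z, hZ, hpZ, hZx⟩ := hcov p.1 hp1 L hL (N / 4) (by positivity) B hB hpB (by
      intro z hpz hzB hsesh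
      have h1 := hwid z hpz hzB L hL (C1 * N ^ 3) (16 * C2 * N) (by positivity) (by positivity) (by
        intro D b hD hDp hDL
        have hcl : cl D = L - b • clp p := by rw [← hDL]; abel
        constructor
        · have h2 := i4_nonneg_of_eff hN hP hH hD
          rw [hcl, i4_sub1 hN, i4_nsmul1 hN] at h2
          have h3' : (0 : ℝ) ≤ i4 s L H H H - b * i4 s (clp p) H H H := by exact_mod_cast h2
          have h4 : (b : ℝ) * 1 ≤ b * i4 s (clp p) H H H :=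
            mul_le_mul_of_nonneg_left hpH (Nat.cast_nonneg b)
          rw [← hmr]
          linarith
        · have h2 := hP.seshadri3 p z L (N / 4) hpz hL (by positivity) hsesh D hD hDp
          rw [hcl, i3_sub1 hN hp3, i3_nsmul1 hN hp3] at h2
          push_cast at h2
          have h5 : (0 : ℝ) ≤ b * i3 s p.1 (clp p) L L :=
            mul_nonneg (Nat.cast_nonneg b) (by exact_mod_cast hself)
          have h6 : (mul p.1 z.1 D : ℝ) * (N / 4) ^ 2 ≤ C2 * N ^ 3 := by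
            rw [← hmr]
            linarith
          have h7 : (mul p.1 z.1 D : ℝ) * N ^ 2 ≤ (16 * C2 * N) * N ^ 2 := by nlinarith
          exact le_of_mul_le_mul_right h7 (by positivity))
      have h2 := hexc m (by rw [hm]; exact hNm)
      rw [← hLdef] at h2
      have h3' : c * (m : ℝ) ^ 2 = c * (N : ℝ) ^ 6 := by rw [hmr]; ring
      linarith)
    have hxZ : x.1 ∈ Z := hpx.mem_closed hZ hpZ
    obtain ⟨y, _, hyx, hyr, hyd⟩ := hZx x hxZ
    rw [hp3] at hr3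
    have hr3' : r ≤ 3 := by exact_mod_cast hr3
    refine ⟨y, hyx, ?_, ?_, hyd.trans ?_⟩
    · rw [hyr]; exact_mod_cast hr1
    · rw [hyr]; exact_mod_cast hr3'
    · rw [hd]
      have ht : (1 : ℝ) ≤ 3 * (N / 4) := by linarith
      have t2 : 3 * ((N : ℝ) / 4) ≤ (3 * (N / 4)) ^ 3 := by
        have := pow_le_pow_right₀ ht (show 1 ≤ 3 by norm_num)
        simpa using this
      have t3 : (3 * ((N : ℝ) / 4)) ^ 2 ≤ (3 * (N / 4)) ^ 3 :=
        pow_le_pow_right₀ ht (by norm_num)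
      interval_cases r
      · push_cast
        rw [pow_one]
        linarith
      · push_cast
        refine le_trans ?_ t3
        exact pow_le_pow_left₀ (by positivity) (by linarith) 2
      · push_cast
        exact le_refl _

end Pool.AB4
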