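import Pool.Agent.H20.AB.Fin
import Pool.Agent.H53.AB.EXC
import Pool.Agent.H78.AB.WID
import Pool.Agent.H85.AB.COV
import Pool.Agent.H5.AB.NU1
import Pool.Agent.H84.AB.NU2A
import Pool.Agent.H23.AB.TOPJAC

/-!
The assembly.
-/

set_option linter.unusedSectionVars false

namespace Pool.AB4

open AlgebraicGeometry CategoryTheory Order Filter Topology

variable {X Y : Scheme.{0}} [IsIntegral X] [IsLocallyNoetherian X] [IsIntegral Y]
  [IsLocallyNoetherian Y]

theorem rows {s : Y ⟶ Spec (.of ℂ)} (ha : ∃ a : Pic Y, Ample a) (hN : Numbers s)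
    (hP : Positivity s) : Rows Y s where
  exc2 := fun hrr hr hd hM hE h3 hc => exc2 hN ha hrr hr hd hM hE h3 hc
  exc1 := fun hrr hr hd hM hA hE h2 hc hcA => exc1 hN ha hrr hr hd hM hA hE h2 hc hcA
  cover := fun w hw L hL α hα B hB hwB h => cover hN hP hw hL hα hB hwB h
  width3 := fun p => width3 hN hP p
  nu1 := fun hM hH hvol hexc =>
    nu1_of hN hP (fun x _ hL _ hμ h => width4 hN hP x hL hμ h)
      (fun hw _ hL _ hα _ hB hwB h => cover hN hP hw hL hα hB hwB h)
      (fun hM hH _ hm _ hy h => small_deg hN hM hH hm hy h) hM hH hvol hexc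
  nu2A := fun hM hH h3 hpos hexc => nu2A hN hP hM hH h3 hpos hexc
  top := fun hY Z hZ h => infinite_primes hN hY hZ h
  jac := fun hs Z hZ w h => closed_points hN hs hZ h

theorem final (t : X ⟶ Spec (.of ℂ)) (f : Y ⟶ X) (r : ℕ) (K M : Pic Y) (E : Div Y)
    (hm : MinimalModel t f r K M E) (hp : Published t f K M E)
    (h : ((∀ a, i4 (f ≫ t) M M M a = 0) ∧ c2 (f ≫ t) K M M ≠ 0) ∨
      ((∀ a b, i4 (f ≫ t) M M a b = 0) ∧
        ∃ A, IsPullback f A ∧ Nef (f ≫ t) A ∧ c2 (f ≫ t) K M A ≠ 0)) :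
    Semiample M ∧ ∀ (Z : Scheme.{0}) [IsIntegral Z] [IsLocallyNoetherian Z]
      (u : Z ⟶ Spec (.of ℂ)), Fourfold u → Birational (f ≫ t) u → CampanaPeternell u :=
  final_of t f r K M E hm hp (rows hm.fourfold.projective hp.numbers hp.positivity) h

end Pool.AB4
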