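import Pool.Agent.H20.AB.Theory

/-!
# Elementary facts
-/

set_option linter.unusedSectionVars false

namespace Pool.AB4

open AlgebraicGeometry CategoryTheory Order Filter Topology

variable {Y : Scheme.{0}} [IsIntegral Y] [IsLocallyNoetherian Y] {s : Y ⟶ Spec (.of ℂ)}

/-- The number of sections of `m M + H` exceeds the volume divided by `24` by at least
`c m ^ k`. -/
def Excess (s : Y ⟶ Spec (.of ℂ)) (M H : Pic Y) (k : ℕ) : Prop :=
  ∃ c : ℝ, 0 < c ∧ ∃ m₀ : ℕ, ∀ m : ℕ, m₀ ≤ m →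
    c * (m : ℝ) ^ k ≤ 24 * (h0 s (m • M + H) : ℝ) - dg s (genericPoint Y) (m • M + H)

/-- A curve of degree zero with respect to `M` passes through every closed point. -/
def Covered (s : Y ⟶ Spec (.of ℂ)) (M : Pic Y) : Prop :=
  ∀ x : Pt Y, ∃ C : Cv Y, C.1 ⤳ x.1 ∧ i1 s C.1 M = 0

/-! ### Points -/

theorem spec_antisymm {x y : Y} (h : x ⤳ y) (h' : y ⤳ x) : x = y :=
  (h.antisymm h').eq

theorem lt_iff_spec {x y : Y} : x < y ↔ y ⤳ x ∧ x ≠ y := by
  rw [lt_iff_le_not_ge]
  constructor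
  · rintro ⟨h1, h2⟩
    exact ⟨h1, fun h => h2 (h ▸ le_refl x)⟩
  · rintro ⟨h1, h2⟩
    exact ⟨h1, fun h => h2 (spec_antisymm (show x ⤳ y from h) h1)⟩

theorem eq_of_height {x y : Y} (h : y ⤳ x) {n : ℕ} (hy : height y = n) (hx : height x = n) :
    x = y := by
  by_contra hne
  have h1 : x < y := lt_iff_spec.2 ⟨h, hne⟩
  have := height_strictMono h1 (by simp [hx])
  rw [hx, hy] at this
  exact lt_irrefl _ this

theorem eq_generic_of_coheight {y : Y} (h : coheight y = 0) : y = genericPoint Y := by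
  rw [coheight_eq_zero] at h
  have h2 := h (show y ≤ genericPoint Y from genericPoint_specializes y)
  exact spec_antisymm h2 (genericPoint_specializes y)

theorem height_generic (hN : Numbers s) : height (genericPoint Y) = 4 := by
  have h := hN.dim (genericPoint Y)
  have h2 : coheight (genericPoint Y) = 0 := by
    rw [coheight_eq_zero]
    intro y _
    exact genericPoint_specializes y
  rw [h2, add_zero] at h
  exact h

theorem height_prime (hN : Numbers s) (p : Pr Y) : height p.1 = 3 := by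
  have h := hN.dim p.1
  rw [p.2] at h
  have : (4 : ℕ∞) = 3 + 1 := by norm_num
  rw [this] at h
  exact ENat.add_left_injective_of_ne_top (n := 1) (by decide) h

theorem prime_of_height (hN : Numbers s) {y : Y} (hy : height y = 3) : coheight y = 1 := by
  have h := hN.dim y
  rw [hy, add_comm] at h
  have : (4 : ℕ∞) = 1 + 3 := by norm_num
  rw [this] at h
  exact ENat.add_left_injective_of_ne_top (n := 3) (by decide) h

theorem eq_generic_of_height (hN : Numbers s) {y : Y} (hy : height y = 4) :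
    y = genericPoint Y := by
  have h := hN.dim y
  rw [hy, add_comm] at h
  have : (4 : ℕ∞) = 0 + 4 := by norm_num
  rw [this] at h
  exact eq_generic_of_coheight (ENat.add_left_injective_of_ne_top (n := 4) (by decide) h)

theorem height_le (hN : Numbers s) (y : Y) : height y ≤ 4 := by
  rw [← hN.dim y]
  exact le_self_add

/-- the height of a point is one of 0, 1, 2, 3, 4. -/
theorem height_cases (hN : Numbers s) (y : Y) : ∃ r : ℕ, r ≤ 4 ∧ height y = r := by
  have h := height_le hN y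
  have h2 : height y ≠ ⊤ := by
    intro h3
    rw [h3] at h
    exact absurd h (by decide)
  obtain ⟨r, hr⟩ := ENat.ne_top_iff_exists.1 h2
  refine ⟨r, ?_, hr.symm⟩
  rw [← hr] at h
  exact_mod_cast h

/-! ### Intersection forms -/

theorem cl_add (D D' : Div Y) : cl (D + D') = cl D + cl D' := rfl

theorem cl_zsmul (n : ℤ) (D : Div Y) : cl (n • D) = n • cl D := rfl

theorem cl_sum {ι : Type} (S : Finset ι) (D : ι → Div Y) :
    cl (∑ i ∈ S, D i) = ∑ i ∈ S, cl (D i) :=
  map_sum (QuotientAddGroup.mk' (Prin Y)) D S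

theorem i1_spec (hN : Numbers s) {y : Y} (hy : height y = 1) : IsForm1 s y (i1 s y) := by
  unfold i1
  rw [dif_pos (hN.form1 y hy)]
  exact (hN.form1 y hy).choose_spec

theorem i2_spec (hN : Numbers s) {y : Y} (hy : height y = 2) : IsForm2 s y (i2 s y) := by
  unfold i2
  rw [dif_pos (hN.form2 y hy)]
  exact (hN.form2 y hy).choose_spec

theorem i3_spec (hN : Numbers s) {y : Y} (hy : height y = 3) : IsForm3 s y (i3 s y) := by
  unfold i3
  rw [dif_pos (hN.form3 y hy)]
  exact (hN.form3 y hy).choose_spec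

theorem i4_spec (hN : Numbers s) : IsForm4 s (genericPoint Y) (i4 s) := by
  unfold i4
  rw [dif_pos hN.form4]
  exact hN.form4.choose_spec

theorem c2_spec {K : Pic Y} (h : ∃ c, IsC2 s K c) : IsC2 s K (c2 s K) := by
  unfold c2
  rw [dif_pos h]
  exact h.choose_spec

/-- An additive function as a homomorphism. -/
noncomputable def mkHom (g : Pic Y → ℤ) (h : ∀ a b, g (a + b) = g a + g b) : Pic Y →+ ℤ :=
  AddMonoidHom.mk' g h

theorem fun_nsmul {g : Pic Y → ℤ} (h : ∀ a b, g (a + b) = g a + g b) (m : ℕ) (a : Pic Y) :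
    g (m • a) = m * g a := by
  have := map_nsmul (mkHom g h) m a
  rw [nsmul_eq_mul] at this
  exact this

theorem fun_zsmul {g : Pic Y → ℤ} (h : ∀ a b, g (a + b) = g a + g b) (m : ℤ) (a : Pic Y) :
    g (m • a) = m * g a := by
  have := map_zsmul (mkHom g h) m a
  rw [zsmul_eq_mul] at this
  exact this

theorem fun_sub {g : Pic Y → ℤ} (h : ∀ a b, g (a + b) = g a + g b) (a b : Pic Y) :
    g (a - b) = g a - g b :=
  map_sub (mkHom g h) a b

theorem fun_neg {g : Pic Y → ℤ} (h : ∀ a b, g (a + b) = g a + g b) (a : Pic Y) :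
    g (-a) = - g a :=
  map_neg (mkHom g h) a

theorem fun_zero {g : Pic Y → ℤ} (h : ∀ a b, g (a + b) = g a + g b) : g 0 = 0 :=
  map_zero (mkHom g h)

theorem fun_sum {g : Pic Y → ℤ} (h : ∀ a b, g (a + b) = g a + g b) {ι : Type} (S : Finset ι)
    (a : ι → Pic Y) : g (∑ i ∈ S, a i) = ∑ i ∈ S, g (a i) :=
  map_sum (mkHom g h) a S

theorem i1_add (hN : Numbers s) {y : Y} (hy : height y = 1) (a b : Pic Y) :
    i1 s y (a + b) = i1 s y a + i1 s y b := (i1_spec hN hy).1 a b

theorem i1_diag (hN : Numbers s) {y : Y} (hy : height y = 1) {a : Pic Y} (ha : Ample a) :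
    (i1 s y a : ℝ) = dg s y a := (i1_spec hN hy).2 a ha

theorem i2_add1 (hN : Numbers s) {y : Y} (hy : height y = 2) (a b c : Pic Y) :
    i2 s y (a + b) c = i2 s y a c + i2 s y b c := (i2_spec hN hy).1 a b c

theorem i2_symm (hN : Numbers s) {y : Y} (hy : height y = 2) (a b : Pic Y) :
    i2 s y a b = i2 s y b a := (i2_spec hN hy).2.1 a b

theorem i2_add2 (hN : Numbers s) {y : Y} (hy : height y = 2) (a b c : Pic Y) :
    i2 s y a (b + c) = i2 s y a b + i2 s y a c := by
  rw [i2_symm hN hy a, i2_add1 hN hy, i2_symm hN hy b, i2_symm hN hy c]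

theorem i2_diag (hN : Numbers s) {y : Y} (hy : height y = 2) {a : Pic Y} (ha : Ample a) :
    (i2 s y a a : ℝ) = dg s y a := (i2_spec hN hy).2.2 a ha

theorem i3_add1 (hN : Numbers s) {y : Y} (hy : height y = 3) (a b c d : Pic Y) :
    i3 s y (a + b) c d = i3 s y a c d + i3 s y b c d := (i3_spec hN hy).1 a b c d

theorem i3_s1 (hN : Numbers s) {y : Y} (hy : height y = 3) (a b c : Pic Y) :
    i3 s y a b c = i3 s y b a c := (i3_spec hN hy).2.1 a b c

theorem i3_s2 (hN : Numbers s) {y : Y} (hy : height y = 3) (a b c : Pic Y) :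
    i3 s y a b c = i3 s y a c b := (i3_spec hN hy).2.2.1 a b c

theorem i3_add2 (hN : Numbers s) {y : Y} (hy : height y = 3) (a b c d : Pic Y) :
    i3 s y a (b + c) d = i3 s y a b d + i3 s y a c d := by
  rw [i3_s1 hN hy a, i3_add1 hN hy, i3_s1 hN hy b, i3_s1 hN hy c]

theorem i3_add3 (hN : Numbers s) {y : Y} (hy : height y = 3) (a b c d : Pic Y) :
    i3 s y a b (c + d) = i3 s y a b c + i3 s y a b d := by
  rw [i3_s2 hN hy a b, i3_add2 hN hy, i3_s2 hN hy a c, i3_s2 hN hy a d]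

theorem i3_diag (hN : Numbers s) {y : Y} (hy : height y = 3) {a : Pic Y} (ha : Ample a) :
    (i3 s y a a a : ℝ) = dg s y a := (i3_spec hN hy).2.2.2 a ha

theorem i4_add1 (hN : Numbers s) (a b c d e : Pic Y) :
    i4 s (a + b) c d e = i4 s a c d e + i4 s b c d e := (i4_spec hN).1 a b c d e

theorem i4_s1 (hN : Numbers s) (a b c d : Pic Y) : i4 s a b c d = i4 s b a c d :=
  (i4_spec hN).2.1 a b c d

theorem i4_s2 (hN : Numbers s) (a b c d : Pic Y) : i4 s a b c d = i4 s a c b d :=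
  (i4_spec hN).2.2.1 a b c d

theorem i4_s3 (hN : Numbers s) (a b c d : Pic Y) : i4 s a b c d = i4 s a b d c :=
  (i4_spec hN).2.2.2.1 a b c d

theorem i4_add2 (hN : Numbers s) (a b c d e : Pic Y) :
    i4 s a (b + c) d e = i4 s a b d e + i4 s a c d e := by
  rw [i4_s1 hN a, i4_add1 hN, i4_s1 hN b, i4_s1 hN c]

theorem i4_add3 (hN : Numbers s) (a b c d e : Pic Y) :
    i4 s a b (c + d) e = i4 s a b c e + i4 s a b d e := by
  rw [i4_s2 hN a b, i4_add2 hN, i4_s2 hN a c, i4_s2 hN a d]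

theorem i4_add4 (hN : Numbers s) (a b c d e : Pic Y) :
    i4 s a b c (d + e) = i4 s a b c d + i4 s a b c e := by
  rw [i4_s3 hN a b c, i4_add3 hN, i4_s3 hN a b d, i4_s3 hN a b e]

theorem i4_diag (hN : Numbers s) {a : Pic Y} (ha : Ample a) :
    (i4 s a a a a : ℝ) = dg s (genericPoint Y) a := (i4_spec hN).2.2.2.2 a ha

theorem nef_of_ample (hN : Numbers s) {a : Pic Y} (ha : Ample a) : Nef s a := by
  intro C
  have h1 := i1_diag hN C.2 ha
  have h2 := hN.pos C.1 a ha
  rw [← h1] at h2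
  exact_mod_cast h2.le

theorem nef_nsmul (hN : Numbers s) {a : Pic Y} (ha : Nef s a) (m : ℕ) : Nef s (m • a) := by
  intro C
  rw [fun_nsmul (i1_add hN C.2)]
  exact mul_nonneg (Nat.cast_nonneg m) (ha C)

theorem nef_add (hN : Numbers s) {a b : Pic Y} (ha : Nef s a) (hb : Nef s b) :
    Nef s (a + b) := by
  intro C
  rw [i1_add hN C.2]
  exact add_nonneg (ha C) (hb C)

theorem ample_add (hN : Numbers s) {M H : Pic Y} (hM : Nef s M) (hH : Ample H) (m : ℕ) :
    Ample (m • M + H) :=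
  hN.kleiman _ _ (nef_nsmul hN hM m) hH

/-- the degree of `m M + H` on a curve -/
theorem i1_expand (hN : Numbers s) {y : Y} (hy : height y = 1) (M H : Pic Y) (m : ℕ) :
    i1 s y (m • M + H) = m * i1 s y M + i1 s y H := by
  rw [i1_add hN hy, fun_nsmul (i1_add hN hy)]

/-- the square of `m M + H` on a surface -/
theorem i2_expand (hN : Numbers s) {y : Y} (hy : height y = 2) (M H : Pic Y) (m : ℕ) :
    i2 s y (m • M + H) (m • M + H) =
      (m : ℤ) ^ 2 * i2 s y M M + 2 * m * i2 s y M H + i2 s y H H := by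
  have n1 : ∀ a b, i2 s y (m • a) b = m * i2 s y a b := fun a b =>
    fun_nsmul (g := fun a => i2 s y a b) (fun a c => i2_add1 hN hy a c b) m a
  have n2 : ∀ a b, i2 s y a (m • b) = m * i2 s y a b := fun a b =>
    fun_nsmul (g := fun b => i2 s y a b) (fun b c => i2_add2 hN hy a b c) m b
  simp only [i2_add1 hN hy, i2_add2 hN hy, n1, n2]
  rw [i2_symm hN hy H M]
  ring

/-- the cube of `m M + H` on a threefold -/
theorem i3_expand (hN : Numbers s) {y : Y} (hy : height y = 3) (M H : Pic Y) (m : ℕ) :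
    i3 s y (m • M + H) (m • M + H) (m • M + H) =
      (m : ℤ) ^ 3 * i3 s y M M M + 3 * m ^ 2 * i3 s y M M H + 3 * m * i3 s y M H H +
        i3 s y H H H := by
  have n1 : ∀ a b c, i3 s y (m • a) b c = m * i3 s y a b c := fun a b c =>
    fun_nsmul (g := fun a => i3 s y a b c) (fun a d => i3_add1 hN hy a d b c) m a
  have n2 : ∀ a b c, i3 s y a (m • b) c = m * i3 s y a b c := fun a b c =>
    fun_nsmul (g := fun b => i3 s y a b c) (fun b d => i3_add2 hN hy a b d c) m b
  have n3 : ∀ a b c, i3 s y a b (m • c) = m * i3 s y a b c := fun a b c =>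
    fun_nsmul (g := fun c => i3 s y a b c) (fun c d => i3_add3 hN hy a b c d) m c
  simp only [i3_add1 hN hy, i3_add2 hN hy, i3_add3 hN hy, n1, n2, n3]
  have e1 : i3 s y M H M = i3 s y M M H := i3_s2 hN hy _ _ _
  have e2 : i3 s y H M M = i3 s y M M H := by rw [i3_s1 hN hy, e1]
  have e3 : i3 s y H M H = i3 s y M H H := i3_s1 hN hy _ _ _
  have e4 : i3 s y H H M = i3 s y M H H := by rw [i3_s2 hN hy, e3]
  rw [e1, e2, e3, e4]
  ring

theorem i4_nsmul1 (hN : Numbers s) (m : ℕ) (a b c d : Pic Y) :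
    i4 s (m • a) b c d = m * i4 s a b c d :=
  fun_nsmul (g := fun a => i4 s a b c d) (fun a e => i4_add1 hN a e b c d) m a

theorem i4_nsmul2 (hN : Numbers s) (m : ℕ) (a b c d : Pic Y) :
    i4 s a (m • b) c d = m * i4 s a b c d :=
  fun_nsmul (g := fun b => i4 s a b c d) (fun b e => i4_add2 hN a b e c d) m b

theorem i4_nsmul3 (hN : Numbers s) (m : ℕ) (a b c d : Pic Y) :
    i4 s a b (m • c) d = m * i4 s a b c d :=
  fun_nsmul (g := fun c => i4 s a b c d) (fun c e => i4_add3 hN a b c e d) m c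

theorem i4_nsmul4 (hN : Numbers s) (m : ℕ) (a b c d : Pic Y) :
    i4 s a b c (m • d) = m * i4 s a b c d :=
  fun_nsmul (g := fun d => i4 s a b c d) (fun d e => i4_add4 hN a b c d e) m d

theorem i4_sub1 (hN : Numbers s) (a b c d e : Pic Y) :
    i4 s (a - b) c d e = i4 s a c d e - i4 s b c d e :=
  fun_sub (g := fun a => i4 s a c d e) (fun a b => i4_add1 hN a b c d e) a b

theorem i3_nsmul1 (hN : Numbers s) {y : Y} (hy : height y = 3) (m : ℕ) (a b c : Pic Y) :
    i3 s y (m • a) b c = m * i3 s y a b c :=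
  fun_nsmul (g := fun a => i3 s y a b c) (fun a d => i3_add1 hN hy a d b c) m a

theorem i3_sub1 (hN : Numbers s) {y : Y} (hy : height y = 3) (a b c d : Pic Y) :
    i3 s y (a - b) c d = i3 s y a c d - i3 s y b c d :=
  fun_sub (g := fun a => i3 s y a c d) (fun a b => i3_add1 hN hy a b c d) a b

/-- the fourth power of `m M + H` -/
theorem i4_expand (hN : Numbers s) (M H : Pic Y) (m : ℕ) :
    i4 s (m • M + H) (m • M + H) (m • M + H) (m • M + H) =
      (m : ℤ) ^ 4 * i4 s M M M M + 4 * m ^ 3 * i4 s M M M H + 6 * m ^ 2 * i4 s M M H H +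
        4 * m * i4 s M H H H + i4 s H H H H := by
  simp only [i4_add1 hN, i4_add2 hN, i4_add3 hN, i4_add4 hN, i4_nsmul1 hN, i4_nsmul2 hN,
    i4_nsmul3 hN, i4_nsmul4 hN]
  have h1 := i4_s1 hN
  have h2 := i4_s2 hN
  have h3 := i4_s3 hN
  have a1 : i4 s M M H M = i4 s M M M H := h3 _ _ _ _
  have a2 : i4 s M H M M = i4 s M M M H := by rw [h2, a1]
  have a3 : i4 s H M M M = i4 s M M M H := by rw [h1, a2]
  have b1 : i4 s M H M H = i4 s M M H H := h2 _ _ _ _
  have b2 : i4 s M H H M = i4 s M M H H := by rw [h3, b1]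
  have b3 : i4 s H M M H = i4 s M M H H := by rw [h1, b1]
  have b4 : i4 s H M H M = i4 s M M H H := by rw [h1, b2]
  have b5 : i4 s H H M M = i4 s M M H H := by rw [h2, b4]
  have d1 : i4 s H M H H = i4 s M H H H := h1 _ _ _ _
  have d2 : i4 s H H M H = i4 s M H H H := by rw [h2, d1]
  have d3 : i4 s H H H M = i4 s M H H H := by rw [h3, d2]
  rw [a1, a2, a3, b1, b2, b3, b4, b5, d1, d2, d3]
  ring

theorem c2_add1 {K : Pic Y} (h : ∃ c, IsC2 s K c) (a b d : Pic Y) :
    c2 s K (a + b) d = c2 s K a d + c2 s K b d := (c2_spec h).1 a b d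

theorem c2_symm {K : Pic Y} (h : ∃ c, IsC2 s K c) (a b : Pic Y) : c2 s K a b = c2 s K b a :=
  (c2_spec h).2.1 a b

theorem c2_add2 {K : Pic Y} (h : ∃ c, IsC2 s K c) (a b d : Pic Y) :
    c2 s K a (b + d) = c2 s K a b + c2 s K a d := by
  rw [c2_symm h a, c2_add1 h, c2_symm h b, c2_symm h d]

theorem c2_nsmul1 {K : Pic Y} (h : ∃ c, IsC2 s K c) (m : ℕ) (a b : Pic Y) :
    c2 s K (m • a) b = m * c2 s K a b :=
  fun_nsmul (g := fun a => c2 s K a b) (fun a d => c2_add1 h a d b) m a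

theorem c2_nsmul2 {K : Pic Y} (h : ∃ c, IsC2 s K c) (m : ℕ) (a b : Pic Y) :
    c2 s K a (m • b) = m * c2 s K a b :=
  fun_nsmul (g := fun b => c2 s K a b) (fun b d => c2_add2 h a b d) m b

end Pool.AB4
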