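import Pool.Agent.H20.AB.NU2

/-!
The final theorem from the rows.
-/

set_option linter.unusedSectionVars false

namespace Pool.AB4

open AlgebraicGeometry CategoryTheory Order Filter Topology

/-- The rows which are proved elsewhere. -/
structure Rows (Y : Scheme.{0}) [IsIntegral Y] [IsLocallyNoetherian Y] (s : Y ⟶ Spec (.of ℂ)) :
    Prop where
  exc2 : ∀ {K M : Pic Y} {E : Div Y} {r : ℕ}, (∃ c, IsC2 s K c) → 0 < r →
    r • K = M + cl E → Nef s M → (∀ a, i4 s (cl E) M M a = 0) → (∀ a, i4 s M M M a = 0) →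
    0 < c2 s K M M → ∃ H : Pic Y, Ample H ∧ Excess s M H 2
  exc1 : ∀ {K M A : Pic Y} {E : Div Y} {r : ℕ}, (∃ c, IsC2 s K c) → 0 < r →
    r • K = M + cl E → Nef s M → Nef s A → (∀ a, i4 s (cl E) M A a = 0) →
    (∀ a b, i4 s M M a b = 0) → 0 ≤ c2 s K M M → 0 < c2 s K M A →
    ∃ H : Pic Y, Ample H ∧ Excess s M H 1
  cover : CoverStmt s
  width3 : Width3Stmt s
  nu1 : ∀ {M H : Pic Y}, Nef s M → Ample H →
    (∃ C : ℝ, ∀ m : ℕ, 1 ≤ m → dg s (genericPoint Y) (m • M + H) ≤ C * m) →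
    Excess s M H 1 → Covered s M
  nu2A : ∀ {M H : Pic Y}, Nef s M → Ample H → (∀ a, i4 s M M M a = 0) → 0 < i4 s M M H H →
    Excess s M H 2 → Covered s M ∨ ∃ (L : Pic Y) (d : ℝ), Ample L ∧
      ∀ x : Pt Y, ∃ p : Pr Y, p.1 ⤳ x.1 ∧ i3 s p.1 M M H = 0 ∧ dg s p.1 L ≤ d
  top : CompactSpace Y → ∀ Z : Set Y, IsClosed Z → {p : Pr Y | p.1 ∈ Z}.Infinite →
    genericPoint Y ∈ Z
  jac : LocallyOfFiniteType s → ∀ Z : Set Y, IsClosed Z → ∀ w : Y,
    (∀ x : Pt Y, w ⤳ x.1 → x.1 ∈ Z) → w ∈ Z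

variable {X Y : Scheme.{0}} [IsIntegral X] [IsLocallyNoetherian X] [IsIntegral Y]
  [IsLocallyNoetherian Y]

theorem final_of (t : X ⟶ Spec (.of ℂ)) (f : Y ⟶ X) (r : ℕ) (K M : Pic Y) (E : Div Y)
    (hm : MinimalModel t f r K M E) (hp : Published t f K M E) (hR : Rows Y (f ≫ t))
    (h : ((∀ a, i4 (f ≫ t) M M M a = 0) ∧ c2 (f ≫ t) K M M ≠ 0) ∨
      ((∀ a b, i4 (f ≫ t) M M a b = 0) ∧
        ∃ A, IsPullback f A ∧ Nef (f ≫ t) A ∧ c2 (f ≫ t) K M A ≠ 0)) :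
    Semiample M ∧ ∀ (Z : Scheme.{0}) [IsIntegral Z] [IsLocallyNoetherian Z]
      (u : Z ⟶ Spec (.of ℂ)), Fourfold u → Birational (f ≫ t) u → CampanaPeternell u := by
  have hN := hp.numbers
  have hP := hp.positivity
  have hpr := hm.fourfold.proper
  have hft : LocallyOfFiniteType (f ≫ t) := inferInstance
  have hcs : CompactSpace Y := QuasiCompact.compactSpace_of_compactSpace (f ≫ t)
  have hMM := hp.miyaoka M M hm.pullback hm.pullback hm.nef hm.nef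
  have hE : ∀ A, IsPullback f A → ∀ a, i4 (f ≫ t) (cl E) M A a = 0 := by
    intro A hA a
    rw [i4_cl hN]
    refine Finset.sum_eq_zero fun p hpE => ?_
    rw [hp.contracted p (Finsupp.mem_support_iff.1 hpE) M A a hm.pullback hA, mul_zero]
  have hcov : Covered (f ≫ t) M := by
    rcases h with ⟨h3, hc⟩ | ⟨h2, A, hA, hAn, hc⟩
    · obtain ⟨H, hH, hexc⟩ := hR.exc2 hp.riemannRoch hm.pos hm.discrepancy hm.nef
        (hE M hm.pullback) h3 (lt_of_le_of_ne hMM (Ne.symm hc))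
      exact nu2_of hN hP (hR.jac hft) (hR.top hcs) hR.cover hR.width3 hm.nef hH
        (hR.nu1 hm.nef hH) (fun h => hR.nu2A hm.nef hH h3 h hexc) h3 hexc
    · have hMA := hp.miyaoka M A hm.pullback hA hm.nef hAn
      obtain ⟨H, hH, hexc⟩ := hR.exc1 hp.riemannRoch hm.pos hm.discrepancy hm.nef hAn
        (hE A hA) h2 hMM (lt_of_le_of_ne hMA (Ne.symm hc))
      exact hR.nu1 hm.nef hH (vol_linear hN hm.nef hH (h2 _ _) (h2 _ _) (h2 _ _)) hexc
  have hs := hp.ambro hcov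
  exact ⟨hs, hp.nakayama hs⟩

end Pool.AB4
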