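import Pool.Agent.H20.AB.NU2B

/-!
Row NU2: numerical dimension two, and the final theorem.
-/

set_option linter.unusedSectionVars false

namespace Pool.AB4

open AlgebraicGeometry CategoryTheory Order Filter Topology

section

variable {Y : Scheme.{0}} [IsIntegral Y] [IsLocallyNoetherian Y] {s : Y ⟶ Spec (.of ℂ)}

theorem i4_cl (hN : Numbers s) (E : Div Y) (a b c : Pic Y) :
    i4 s (cl E) a b c = ∑ p ∈ E.support, E p * i4 s (clp p) a b c := by
  classical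
  have h2 : E = ∑ p ∈ E.support, E p • Finsupp.single p (1 : ℤ) := by
    conv_lhs => rw [← Finsupp.sum_single E]
    unfold Finsupp.sum
    refine Finset.sum_congr rfl fun p _ => ?_
    rw [Finsupp.smul_single, smul_eq_mul, mul_one]
  have hadd : ∀ x y, i4 s (x + y) a b c = i4 s x a b c + i4 s y a b c :=
    fun x y => i4_add1 hN x y a b c
  calc i4 s (cl E) a b c = i4 s (cl (∑ p ∈ E.support, E p • Finsupp.single p (1 : ℤ))) a b c := by
        rw [← h2]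
    _ = _ := by
        rw [cl_sum, fun_sum (g := fun x => i4 s x a b c) hadd]
        refine Finset.sum_congr rfl fun p _ => ?_
        rw [cl_zsmul]
        exact fun_zsmul (g := fun x => i4 s x a b c) hadd _ _

/-- The volume when `M M H H = 0`. -/
theorem vol_linear (hN : Numbers s) {M H : Pic Y} (hM : Nef s M) (hH : Ample H)
    (h4 : i4 s M M M M = 0) (h3 : i4 s M M M H = 0) (h2 : i4 s M M H H = 0) :
    ∃ C : ℝ, ∀ m : ℕ, 1 ≤ m → dg s (genericPoint Y) (m • M + H) ≤ C * m := by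
  refine ⟨4 * |(i4 s M H H H : ℝ)| + |(i4 s H H H H : ℝ)|, fun m hm => ?_⟩
  have hm1 : (1 : ℝ) ≤ m := by exact_mod_cast hm
  rw [← i4_diag hN (ample_add hN hM hH m), i4_expand hN, h4, h3, h2]
  push_cast
  have e1 := le_abs_self (i4 s M H H H : ℝ)
  have e2 := le_abs_self (i4 s H H H H : ℝ)
  have e3 := abs_nonneg (i4 s H H H H : ℝ)
  nlinarith

theorem excess_one {M H : Pic Y} (h : Excess s M H 2) : Excess s M H 1 := by
  obtain ⟨c, hc, m₀, h⟩ := h
  refine ⟨c, hc, max m₀ 1, fun m hm => ?_⟩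
  have h1 := h m ((le_max_left _ _).trans hm)
  have hm1 : (1 : ℝ) ≤ m := by exact_mod_cast (le_max_right _ _).trans hm
  refine le_trans ?_ h1
  have : (m : ℝ) ^ 1 ≤ m ^ 2 := pow_le_pow_right₀ hm1 (by norm_num)
  exact mul_le_mul_of_nonneg_left this hc.le

/-- ROW NU2. -/
theorem nu2_of (hN : Numbers s) (hP : Positivity s)
    (hjac : ∀ Z : Set Y, IsClosed Z → ∀ w : Y, (∀ x : Pt Y, w ⤳ x.1 → x.1 ∈ Z) → w ∈ Z)
    (htop : ∀ Z : Set Y, IsClosed Z → {p : Pr Y | p.1 ∈ Z}.Infinite → genericPoint Y ∈ Z)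
    (hcov : CoverStmt s) (hw3 : Width3Stmt s)
    {M H : Pic Y} (hM : Nef s M) (hH : Ample H)
    (hnu1 : (∃ C : ℝ, ∀ m : ℕ, 1 ≤ m → dg s (genericPoint Y) (m • M + H) ≤ C * m) →
      Excess s M H 1 → Covered s M)
    (hnu2A : 0 < i4 s M M H H → Covered s M ∨ ∃ (L : Pic Y) (d : ℝ), Ample L ∧
      ∀ x : Pt Y, ∃ p : Pr Y, p.1 ⤳ x.1 ∧ i3 s p.1 M M H = 0 ∧ dg s p.1 L ≤ d)
    (h3 : ∀ a, i4 s M M M a = 0) (hexc : Excess s M H 2) : Covered s M := by
  classical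
  have hHn := nef_of_ample hN hH
  rcases (hN.nef4 M M H H hM hM hHn hHn).eq_or_lt with h0 | hpos
  · exact hnu1 (vol_linear hN hM hH (h3 M) (h3 H) h0.symm) (excess_one hexc)
  rcases hnu2A hpos with h | ⟨L', d', hL', hp⟩
  · exact h
  obtain ⟨P', hP'⟩ : ∃ P' : Set (Pr Y), P' = {p | i3 s p.1 M M H = 0 ∧ dg s p.1 L' ≤ d'} :=
    ⟨_, rfl⟩
  -- infinitely many primes
  have hinf : P'.Infinite := by
    intro hfin
    have hZ : IsClosed (⋃ p ∈ P', closure ({p.1} : Set Y)) :=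
      hfin.isClosed_biUnion fun p _ => isClosed_closure
    have h1 := hjac _ hZ (genericPoint Y) (fun x _ => by
      obtain ⟨p, hpx, hp0, hpd⟩ := hp x
      rw [Set.mem_iUnion₂]
      exact ⟨p, by rw [hP']; exact ⟨hp0, hpd⟩, hpx.mem_closure⟩)
    rw [Set.mem_iUnion₂] at h1
    obtain ⟨p, _, hpg⟩ := h1
    have h2 : p.1 ⤳ genericPoint Y := specializes_iff_mem_closure.2 hpg
    have h4 := spec_antisymm h2 (genericPoint_specializes p.1)
    have h5 := height_prime hN p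
    rw [h4, height_generic hN] at h5
    exact absurd h5 (by decide)
  -- infinitely many primes with the same form
  obtain ⟨I, hI⟩ : ∃ I, {p | p ∈ P' ∧ i3 s p.1 = I}.Infinite := by
    by_contra hcon
    push Not at hcon
    apply hinf
    have hfin := hP.bounded L' hL' d'
    have : P' ⊆ ⋃ I ∈ ((fun p : Pr Y => i3 s p.1) '' {p | dg s p.1 L' ≤ d'}),
        {p | p ∈ P' ∧ i3 s p.1 = I} := by
      intro p hpP
      rw [Set.mem_iUnion₂]
      refine ⟨i3 s p.1, ⟨p, ?_, rfl⟩, hpP, rfl⟩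
      rw [hP'] at hpP
      exact hpP.2
    exact (hfin.biUnion fun I _ => hcon I).subset this
  obtain ⟨p₀, hp₀, hp₀I⟩ := hI.nonempty
  have hI0 : I M M H = 0 := by
    rw [← hp₀I]
    rw [hP'] at hp₀
    exact hp₀.1
  obtain ⟨L, d, hL, hsmall, hmem⟩ := nu2B_of hN hP hcov hw3 hM hH h3 hexc I hI0
  -- closed sets
  choose Z hZc hZ1 hZ2 using fun r : ℕ => hP.chow (genericPoint Y) L hL r d
  have hZ : IsClosed (Z 1 ∪ (Z 2 ∪ Z 3)) := (hZc 1).union ((hZc 2).union (hZc 3))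
  have hfib : ∀ p, p ∈ {p | p ∈ P' ∧ i3 s p.1 = I} → p.1 ∈ Z 1 ∪ (Z 2 ∪ Z 3) := by
    intro p hpF
    obtain ⟨q, ⟨hqF, hqp⟩⟩ := (hI.sdiff (Set.finite_singleton p)).nonempty
    have hpq : p ≠ q := fun h => hqp (by rw [h]; rfl)
    apply hjac _ hZ
    intro x hpx
    obtain ⟨y, hyx, hy1, hy3, hyd⟩ := hmem p q hpq hpF.2 hqF.2 x hpx
    obtain ⟨r, hr, hyr⟩ := height_cases hN y
    rw [hyr] at hy1 hy3
    have hy1' : 1 ≤ r := by exact_mod_cast hy1
    have hy3' : r ≤ 3 := by exact_mod_cast hy3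
    have hyZ : y ∈ Z r := hZ1 r y (genericPoint_specializes y) hyr hyd
    have hxZ : x.1 ∈ Z r := hyx.mem_closed (hZc r) hyZ
    interval_cases r
    · exact Or.inl hxZ
    · exact Or.inr (Or.inl hxZ)
    · exact Or.inr (Or.inr hxZ)
  have hgen : genericPoint Y ∈ Z 1 ∪ (Z 2 ∪ Z 3) := htop _ hZ (hI.mono hfib)
  intro x
  have hx : x.1 ∈ Z 1 ∪ (Z 2 ∪ Z 3) := (genericPoint_specializes x.1).mem_closed hZ hgen
  have key : ∀ r : ℕ, 1 ≤ r → x.1 ∈ Z r → ∃ C : Cv Y, C.1 ⤳ x.1 ∧ i1 s C.1 M = 0 := by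
    intro r hr hxr
    obtain ⟨y, _, hyx, hyr, hyd⟩ := hZ2 r x hxr
    have hy1 : 1 ≤ height y := by rw [hyr]; exact_mod_cast hr
    obtain ⟨C, hyC, hCx⟩ := hN.curve y x hyx hy1
    exact ⟨C, hCx, hsmall y hy1 hyd C hyC⟩
  rcases hx with h | h | h
  · exact key 1 le_rfl h
  · exact key 2 (by norm_num) h
  · exact key 3 (by norm_num) h

end

end Pool.AB4
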