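import Mathlib

/-!
# Abundance for fourfolds with nonvanishing second Chern class: the objects

`Y` is an integral scheme with a morphism `s` to the spectrum of the complex numbers, in the end a
smooth projective fourfold.  Line bundles are classes of Weil divisors modulo divisors of rational
functions, their sections are described by effective divisors and by rational functions, degrees of
subvarieties by the dimensions of spaces of restricted sections.
-/

namespace Pool.AB4

open AlgebraicGeometry CategoryTheory Order Filter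

variable (Y : Scheme.{0})

/-- Prime divisors: the points of `Y` whose closure has codimension one. -/
abbrev Pr : Type := {p : Y // coheight p = 1}

/-- Irreducible curves: the points of `Y` whose closure has dimension one. -/
abbrev Cv : Type := {C : Y // height C = 1}

/-- Closed points. -/
abbrev Pt : Type := {x : Y // height x = 0}

/-- Divisors. -/
abbrev Div : Type := Pr Y →₀ ℤ

variable {Y}

/-- The local ring of `Y` at the point `x`. -/
abbrev Loc (x : Y) : Type := Y.presheaf.stalk x

/-- The ideal of the closure of `y` in the local ring of `Y` at `x` (the functions which are not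
invertible at `y`); the unit ideal if `x` is not in the closure of `y`. -/
noncomputable def idl (y x : Y) : Ideal (Loc x) :=
  open Classical in
  if h : y ⤳ x then
    (IsLocalRing.maximalIdeal (Loc y)).comap (Y.presheaf.stalkSpecializes h).hom
  else ⊤

/-- The maximal ideal of the local ring at `x`. -/
noncomputable def mx (x : Y) : Ideal (Loc x) := IsLocalRing.maximalIdeal (Loc x)

/-- The length of the quotient of the local ring at `x` by the ideal `I`. -/
noncomputable def len {x : Y} (I : Ideal (Loc x)) : ℕ := (Module.length (Loc x) (Loc x ⧸ I)).toNat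

/-- The length of the quotient of the local ring at `x` of the variety with generic point `y` by the
`k`-th power of its maximal ideal. -/
noncomputable def hs (y x : Y) (k : ℕ) : ℕ := len (mx x ^ k ⊔ idl y x)

/-- The multiplicity of the curve `C` at the closed point `x`: the largest value of
the Hilbert function `dim (m ^ k / m ^ (k + 1))` of the local ring of `C` at `x` (it has this value for
all large `k`). -/
noncomputable def mqt (C : Cv Y) (x : Pt Y) : ℕ := ⨆ k : ℕ, (hs C.1 x.1 (k + 1) - hs C.1 x.1 k)

section Pic

variable (Y) [IsIntegral Y]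

/-- The field of rational functions on `Y`. -/
abbrev Fn : Type := Y.functionField

variable {Y}

/-- Constants as rational functions. -/
noncomputable def cst (s : Y ⟶ Spec (.of ℂ)) : ℂ →+* Fn Y :=
  ((Scheme.ΓSpecIso (.of ℂ)).inv ≫ s.appTop ≫ Y.presheaf.germ ⊤ (genericPoint Y) trivial).hom

/-- Elements of the local ring at `x` as rational functions. -/
noncomputable def toFn (x : Y) : Loc x →+* Fn Y := algebraMap (Loc x) (Fn Y)

variable [IsLocallyNoetherian Y]

/-- The order of a rational function along a prime divisor. -/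
noncomputable def ord (p : Pr Y) (f : Fn Y) : ℤ := Scheme.ord (X := Y) f p.1

variable (Y)

/-- Divisors of rational functions. -/
noncomputable def Prin : AddSubgroup (Div Y) :=
  AddSubgroup.closure {D | ∃ f : Fn Y, f ≠ 0 ∧ ∀ p, D p = ord p f}

/-- The group of divisors modulo divisors of functions, for smooth `Y` the group of line bundles. -/
def Pic : Type := Div Y ⧸ Prin Y

noncomputable instance instPic : AddCommGroup (Pic Y) :=
  QuotientAddGroup.Quotient.addCommGroup (Prin Y)

variable {Y}

/-- The class of a divisor. -/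
noncomputable def cl (D : Div Y) : Pic Y := (QuotientAddGroup.mk D : Div Y ⧸ Prin Y)

/-- The class of a prime divisor. -/
noncomputable def clp (p : Pr Y) : Pic Y := cl (Finsupp.single p 1)

/-- The divisor `D` is effective. -/
def Effective (D : Div Y) : Prop := ∀ p, 0 ≤ D p

/-- The class `a` is ample: the affine complements of the effective divisors in the positive
multiples of `a` cover `Y`. -/
def Ample (a : Pic Y) : Prop :=
  ∀ x : Y, ∃ m : ℕ, 0 < m ∧ ∃ D : Div Y, Effective D ∧ cl D = m • a ∧
    ∃ U : Y.Opens, IsAffineOpen U ∧ x ∈ U ∧ ∀ y : Y, y ∈ U ↔ ∀ p : Pr Y, p.1 ⤳ y → D p = 0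

/-- The dimension of the image of the space of sections of the line bundle `a` in the sections over
the subvariety with generic point `y`: the largest number of rational functions `f` with
`div f + D ≥ 0`, `D` a divisor in the class `a`, such that for every linear combination `g` which
is not trivial `g ≠ 0` and the section `g` does not vanish on the subvariety, that is, the
divisor `div g + D` does not contain it. -/
noncomputable def rk (s : Y ⟶ Spec (.of ℂ)) (y : Y) (a : Pic Y) : ℕ :=
  sSup {n : ℕ | ∃ (D : Div Y) (f : Fin n → Fn Y), cl D = a ∧ ∀ c : Fin n → ℂ, c ≠ 0 →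
    ∃ g : Fn Y, g = ∑ i, cst s (c i) * f i ∧ g ≠ 0 ∧
      ∀ p : Pr Y, 0 ≤ ord p g + D p ∧ (p.1 ⤳ y → ord p g + D p = 0)}

/-- The dimension of the space of sections of the line bundle `a`. -/
noncomputable def h0 (s : Y ⟶ Spec (.of ℂ)) (a : Pic Y) : ℕ := rk s (genericPoint Y) a

/-- The sequence whose limit is the degree. -/
noncomputable def seq (s : Y ⟶ Spec (.of ℂ)) (y : Y) (a : Pic Y) (k : ℕ) : ℝ :=
  ((height y).toNat.factorial : ℝ) * rk s y (k • a) / (k : ℝ) ^ (height y).toNat

/-- The degree `a ^ r · W` of the subvariety `W` of dimension `r` with generic point `y`, for an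
ample line bundle `a`: the limit of `r! dim H^0(W, k a) / k ^ r`. -/
noncomputable def dg (s : Y ⟶ Spec (.of ℂ)) (y : Y) (a : Pic Y) : ℝ := limsup (seq s y a) atTop

/-- `I` is the linear form on line bundles given by the degree on the curve with generic point
`y`. -/
def IsForm1 (s : Y ⟶ Spec (.of ℂ)) (y : Y) (I : Pic Y → ℤ) : Prop :=
  (∀ a b, I (a + b) = I a + I b) ∧ ∀ a, Ample a → (I a : ℝ) = dg s y a

/-- `I` is the intersection form on the surface with generic point `y`. -/
def IsForm2 (s : Y ⟶ Spec (.of ℂ)) (y : Y) (I : Pic Y → Pic Y → ℤ) : Prop :=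
  (∀ a b c, I (a + b) c = I a c + I b c) ∧ (∀ a b, I a b = I b a) ∧
    ∀ a, Ample a → (I a a : ℝ) = dg s y a

/-- `I` is the intersection form on the threefold with generic point `y`. -/
def IsForm3 (s : Y ⟶ Spec (.of ℂ)) (y : Y) (I : Pic Y → Pic Y → Pic Y → ℤ) : Prop :=
  (∀ a b c d, I (a + b) c d = I a c d + I b c d) ∧ (∀ a b c, I a b c = I b a c) ∧
    (∀ a b c, I a b c = I a c b) ∧ ∀ a, Ample a → (I a a a : ℝ) = dg s y a

/-- `I` is the intersection form on the fourfold with generic point `y`. -/
def IsForm4 (s : Y ⟶ Spec (.of ℂ)) (y : Y) (I : Pic Y → Pic Y → Pic Y → Pic Y → ℤ) : Prop :=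
  (∀ a b c d e, I (a + b) c d e = I a c d e + I b c d e) ∧ (∀ a b c d, I a b c d = I b a c d) ∧
    (∀ a b c d, I a b c d = I a c b d) ∧ (∀ a b c d, I a b c d = I a b d c) ∧
    ∀ a, Ample a → (I a a a a : ℝ) = dg s y a

open Classical in
/-- The degree of line bundles on the curve with generic point `y`. -/
noncomputable def i1 (s : Y ⟶ Spec (.of ℂ)) (y : Y) : Pic Y → ℤ :=
  if h : ∃ I, IsForm1 s y I then h.choose else 0

open Classical in
/-- The intersection form of the surface with generic point `y`. -/
noncomputable def i2 (s : Y ⟶ Spec (.of ℂ)) (y : Y) : Pic Y → Pic Y → ℤ :=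
  if h : ∃ I, IsForm2 s y I then h.choose else 0

open Classical in
/-- The intersection form of the threefold with generic point `y`. -/
noncomputable def i3 (s : Y ⟶ Spec (.of ℂ)) (y : Y) : Pic Y → Pic Y → Pic Y → ℤ :=
  if h : ∃ I, IsForm3 s y I then h.choose else 0

open Classical in
/-- The intersection form of the fourfold `Y`. -/
noncomputable def i4 (s : Y ⟶ Spec (.of ℂ)) : Pic Y → Pic Y → Pic Y → Pic Y → ℤ :=
  if h : ∃ I, IsForm4 s (genericPoint Y) I then h.choose else 0

/-- The line bundle `a` is nef: its degree on every curve is nonnegative. -/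
def Nef (s : Y ⟶ Spec (.of ℂ)) (a : Pic Y) : Prop := ∀ C : Cv Y, 0 ≤ i1 s C.1 a

/-- `c` is the quadratic form on line bundles given by the second Chern class of the smooth
projective fourfold `Y` with canonical class `K`, characterised by the theorem of Riemann-Roch: if
`a - K` is ample, then `24 h^0(a) = 24 χ(a) = a^4 - 2 K a^3 + (K^2 + c_2) a^2 - K c_2 a + 24 χ(O)`. -/
def IsC2 (s : Y ⟶ Spec (.of ℂ)) (K : Pic Y) (c : Pic Y → Pic Y → ℤ) : Prop :=
  (∀ a b d, c (a + b) d = c a d + c b d) ∧ (∀ a b, c a b = c b a) ∧
    ∃ e : ℤ, ∀ a : Pic Y, Ample (a - K) →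
      24 * (h0 s a : ℤ) = i4 s a a a a - 2 * i4 s K a a a + i4 s K K a a + c a a - c K a + e

open Classical in
/-- The second Chern class of `Y`, as a quadratic form: `c2 s K a b` is `c_2(Y) · a · b`. -/
noncomputable def c2 (s : Y ⟶ Spec (.of ℂ)) (K : Pic Y) : Pic Y → Pic Y → ℤ :=
  if h : ∃ c, IsC2 s K c then h.choose else 0

/-- `δ` is a derivation of the field of rational functions over the complex numbers. -/
def IsDer (s : Y ⟶ Spec (.of ℂ)) (δ : Fn Y → Fn Y) : Prop :=
  (∀ f g, δ (f + g) = δ f + δ g) ∧ (∀ f g, δ (f * g) = f * δ g + g * δ f) ∧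
    ∀ z : ℂ, δ (cst s z) = 0

/-- `K` is the canonical class of the smooth fourfold `Y`: the class of the divisor `D` of a
rational differential form `u df_1 df_2 df_3 df_4`.  The order of the form along a prime divisor
`p` is the smallest order of its values `u det (δ_i f_j)` on quadruples of derivations which
preserve the local ring of `p` (the smallest order is attained if they are a basis of the
module of these derivations). -/
def IsCanonical (s : Y ⟶ Spec (.of ℂ)) (K : Pic Y) : Prop :=
  ∃ (D : Div Y) (u : Fn Y) (f : Fin 4 → Fn Y), cl D = K ∧ ∀ p : Pr Y,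
    IsLeast {n : ℤ | ∃ (δ : Fin 4 → Fn Y → Fn Y) (v : Fn Y), (∀ i, IsDer s (δ i)) ∧
      (∀ i g, g ∈ (toFn p.1).range → δ i g ∈ (toFn p.1).range) ∧
      v = u * Matrix.det (fun i j => δ i (f j)) ∧ v ≠ 0 ∧ n = ord p v} (D p)

/-- The multiplicity at the point `x` of the restriction of the effective divisor `E` to the
subvariety with generic point `y`: the largest `m` such that the local equation of `E` at `x` (it
generates the ideal of the functions `g` with `div g ≥ E` near `x`) is in the `m`-th power of the
maximal ideal, modulo the ideal of the subvariety. -/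
noncomputable def mul (y x : Y) (E : Div Y) : ℕ :=
  sSup {m : ℕ | ∀ g : Loc x, g ≠ 0 → (∀ p : Pr Y, p.1 ⤳ x → E p ≤ ord p (toFn x g)) →
    g ∈ mx x ^ m ⊔ idl y x}

/-- The Seshadri constant at the closed point `x` of the ample line bundle `a`, restricted to the
subvariety with generic point `y`, is at least `ε`. -/
def Sesh (s : Y ⟶ Spec (.of ℂ)) (y : Y) (x : Pt Y) (a : Pic Y) (ε : ℝ) : Prop :=
  ∀ C : Cv Y, y ⤳ C.1 → C.1 ⤳ x.1 → ε * mqt C x ≤ i1 s C.1 a

/-- The line bundle `a` is semiample: for some `k > 0` the sections of `k a` have no common zero. -/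
def Semiample (a : Pic Y) : Prop :=
  ∃ k : ℕ, 0 < k ∧ ∀ x : Y, ∃ E : Div Y, Effective E ∧ cl E = k • a ∧
    ∀ p : Pr Y, p.1 ⤳ x → E p = 0

/-- The Kodaira dimension of the line bundle `a` is at least `k`. -/
def KodairaGe (s : Y ⟶ Spec (.of ℂ)) (a : Pic Y) (k : ℕ) : Prop :=
  ∃ m : ℕ, 0 < m ∧ ∃ c : ℝ, 0 < c ∧ ∀ j : ℕ, 0 < j → c * (j : ℝ) ^ k ≤ h0 s ((j * m) • a)

/-- The class of `a` is in the closure of the cone of effective divisors: for every ample `h` and
every `m` some positive multiple of `m a + h` has a section. -/
def Pseff (s : Y ⟶ Spec (.of ℂ)) (a : Pic Y) : Prop :=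
  ∀ h : Pic Y, Ample h → ∀ m : ℕ, ∃ k : ℕ, 0 < k ∧ h0 s (k • (m • a + h)) ≠ 0

/-- `Y` is a smooth projective fourfold. -/
structure Fourfold (s : Y ⟶ Spec (.of ℂ)) : Prop where
  smooth : SmoothOfRelativeDimension 4 s
  proper : IsProper s
  projective : ∃ a : Pic Y, Ample a

/-- The conjecture of Campana and Peternell for `Y`.  If `K_Y` is linearly equivalent over the
rational numbers to `A + B` with `A` effective and `B` pseudo-effective, clear the denominators. -/
def CampanaPeternell (s : Y ⟶ Spec (.of ℂ)) : Prop :=
  ∀ K : Pic Y, IsCanonical s K → ∀ (m : ℕ) (A : Div Y), 0 < m → Effective A →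
    Pseff s (m • K - cl A) → ∀ k : ℕ, KodairaGe s (cl A) k → KodairaGe s K k

end Pic

end Pool.AB4
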