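import Pool.Agent.H20.AB.Real

/-!
# Abundance for fourfolds with nonvanishing second Chern class: the published theorems

`f : Y ⟶ X` is a resolution of a projective fourfold `X` with terminal singularities and nef
canonical class.
-/

namespace Pool.AB4

open AlgebraicGeometry CategoryTheory Order Filter Topology

variable {X Y : Scheme.{0}} [IsIntegral X] [IsLocallyNoetherian X] [IsIntegral Y]
  [IsLocallyNoetherian Y]

/-- The line bundle `a` on `Y` is the pullback of a line bundle on `X`: over a neighbourhood of every
point of `X` it is trivial. -/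
def IsPullback (f : Y ⟶ X) (a : Pic Y) : Prop :=
  ∃ D : Div Y, cl D = a ∧ ∀ x : X, ∃ U : X.Opens, x ∈ U ∧ ∃ g : Fn Y, g ≠ 0 ∧
    ∀ p : Pr Y, f p.1 ∈ U → ord p g = D p

/-- The fourfold `Z` is birational to `Y`: the fields of rational functions are isomorphic over the
complex numbers. -/
def Birational (s : Y ⟶ Spec (.of ℂ)) {Z : Scheme.{0}} [IsIntegral Z]
    (u : Z ⟶ Spec (.of ℂ)) : Prop :=
  ∃ e : Fn Y ≃+* Fn Z, ∀ z : ℂ, e (cst s z) = cst u z

/-- `X` is a projective fourfold with terminal singularities and nef canonical class (a minimal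
model), `f : Y ⟶ X` is a resolution of the singularities, an isomorphism over an open set `U` of
`X` whose complement has dimension at most one, `K` is the canonical class of `Y`, `r K_X` is a
line bundle, `M` is its pullback, and `r K = M + E`.  (That `X` is terminal means: the
coefficients of `E` are positive on the prime divisors which are contracted by `f`.  If `X` is
smooth, one can take `Y = X`, `E = 0`, `r = 1`, `M = K`.) -/
structure MinimalModel (t : X ⟶ Spec (.of ℂ)) (f : Y ⟶ X) (r : ℕ) (K M : Pic Y) (E : Div Y) :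
    Prop where
  proper : IsProper t
  projective : ∃ a : Pic X, Ample a
  normal : ∀ x : X, IsIntegrallyClosed (X.presheaf.stalk x)
  fourfold : Fourfold (f ≫ t)
  canonical : IsCanonical (f ≫ t) K
  resolution : ∃ U : X.Opens, IsIso (f ∣_ U) ∧ (∀ x : X, x ∉ U → height x ≤ 1) ∧
    ∀ p : Pr Y, (f p.1 ∈ U → E p = 0) ∧ (f p.1 ∉ U → 0 < E p)
  pos : 0 < r
  pullback : IsPullback f M
  discrepancy : r • K = M + cl E
  nef : Nef (f ≫ t) M

/-- Intersection numbers on the smooth projective fourfold `Y`. -/
structure Numbers (s : Y ⟶ Spec (.of ℂ)) : Prop where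
  /-- the sum of the dimension and the codimension is four -/
  dim : ∀ y : Y, height y + coheight y = 4
  /-- a closed point of a subvariety of positive dimension is on a curve in the subvariety -/
  curve : ∀ (y : Y) (x : Pt Y), y ⤳ x.1 → 1 ≤ height y → ∃ C : Cv Y, y ⤳ C.1 ∧ C.1 ⤳ x.1
  /-- Hilbert: the limit which defines the degree exists -/
  limit : ∀ (y : Y) (a : Pic Y), Ample a → Tendsto (seq s y a) atTop (𝓝 (dg s y a))
  /-- the degree for an ample line bundle is positive -/
  pos : ∀ (y : Y) (a : Pic Y), Ample a → 0 < dg s y a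
  /-- intersection numbers exist -/
  form1 : ∀ y : Y, height y = 1 → ∃ I, IsForm1 s y I
  /-- intersection numbers exist -/
  form2 : ∀ y : Y, height y = 2 → ∃ I, IsForm2 s y I
  /-- intersection numbers exist -/
  form3 : ∀ y : Y, height y = 3 → ∃ I, IsForm3 s y I
  /-- intersection numbers exist -/
  form4 : ∃ I, IsForm4 s (genericPoint Y) I
  /-- the intersection form of a prime divisor is the restriction of the one of `Y` -/
  prime : ∀ (p : Pr Y) (a b c : Pic Y), i4 s (clp p) a b c = i3 s p.1 a b c
  /-- the sum of an ample line bundle and a large multiple of an ample line bundle is ample -/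
  absorb : ∀ a b : Pic Y, Ample a → ∃ k : ℕ, 0 < k ∧ Ample (k • a) ∧ Ample (k • a + b)
  /-- Kleiman 1966: the sum of a nef and an ample line bundle is ample -/
  kleiman : ∀ a b : Pic Y, Nef s a → Ample b → Ample (a + b)
  /-- Kleiman 1966: intersection numbers of nef line bundles are nonnegative -/
  nef2 : ∀ y : Y, height y = 2 → ∀ a b : Pic Y, Nef s a → Nef s b → 0 ≤ i2 s y a b
  /-- Kleiman 1966 -/
  nef3 : ∀ y : Y, height y = 3 → ∀ a b c : Pic Y, Nef s a → Nef s b → Nef s c → 0 ≤ i3 s y a b c
  /-- Kleiman 1966 -/
  nef4 : ∀ a b c d : Pic Y, Nef s a → Nef s b → Nef s c → Nef s d → 0 ≤ i4 s a b c d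
  /-- if the product of a nef line bundle `a` and of powers of an ample line bundle `h` is zero on a
  subvariety, then `a` has degree zero on all curves in it (a curve in the subvariety is a
  component of an intersection of divisors of multiples of `h`) -/
  zero2 : ∀ y : Y, height y = 2 → ∀ a h : Pic Y, Nef s a → Ample h → i2 s y a h = 0 →
    ∀ C : Cv Y, y ⤳ C.1 → i1 s C.1 a = 0
  /-- the same for threefolds -/
  zero3 : ∀ y : Y, height y = 3 → ∀ a h : Pic Y, Nef s a → Ample h → i3 s y a h h = 0 →
    ∀ C : Cv Y, y ⤳ C.1 → i1 s C.1 a = 0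
  /-- the same for `Y` -/
  zero4 : ∀ a h : Pic Y, Nef s a → Ample h → i4 s a h h h = 0 → ∀ C : Cv Y, i1 s C.1 a = 0

/-- Families of subvarieties, Seshadri constants and valuations on the smooth projective fourfold
`Y`. -/
structure Positivity (s : Y ⟶ Spec (.of ℂ)) : Prop where
  /-- Chow: the union of the subvarieties of dimension `r` and degree at most `d` which are contained
  in a given subvariety is closed -/
  chow : ∀ (w : Y) (a : Pic Y), Ample a → ∀ (r : ℕ) (d : ℝ), ∃ Z : Set Y, IsClosed Z ∧
    (∀ y : Y, w ⤳ y → height y = r → dg s y a ≤ d → y ∈ Z) ∧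
    ∀ x : Pt Y, x.1 ∈ Z → ∃ y : Y, w ⤳ y ∧ y ⤳ x.1 ∧ height y = r ∧ dg s y a ≤ d
  /-- the prime divisors of bounded degree are in finitely many numerical classes -/
  bounded : ∀ a : Pic Y, Ample a → ∀ d : ℝ,
    ((fun p : Pr Y => i3 s p.1) '' {p | dg s p.1 a ≤ d}).Finite
  /-- Ein-Kuechle-Lazarsfeld 1995, Theorem 3.1, for the subvariety `W` with generic point `w`: if
  `a ^ r · V ≥ (r α) ^ r` for all subvarieties `V` of `W` of dimension `r ≥ 1` which are not
  contained in `B`, then the Seshadri constant of `a` is at least `α` at the very general points of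
  `W`, in particular at some point outside `B` -/
  ekl : ∀ (w : Y) (a : Pic Y), 1 ≤ height w → Ample a → ∀ α : ℝ, 0 < α → ∀ B : Set Y,
    IsClosed B → w ∉ B →
    (∀ (y : Y) (r : ℕ), w ⤳ y → height y = r → 1 ≤ r → y ∉ B → (r * α) ^ r ≤ dg s y a) →
    ∃ x : Pt Y, w ⤳ x.1 ∧ x.1 ∉ B ∧ Sesh s w x a α
  /-- on the blow-up of `Y` at `x` the pullback of `a` minus `ε` times the exceptional divisor is
  nef, the proper transform of an effective divisor `D` is effective; their intersection number
  is `D a ^ 3 - ε ^ 3 mult_x D` -/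
  seshadri4 : ∀ (x : Pt Y) (a : Pic Y) (ε : ℝ), Ample a → 0 ≤ ε → Sesh s (genericPoint Y) x a ε →
    ∀ D : Div Y, Effective D → mul (genericPoint Y) x.1 D * ε ^ 3 ≤ i4 s (cl D) a a a
  /-- the same for the restriction of `D` to a prime divisor `p` which is not a component of
  `D` -/
  seshadri3 : ∀ (p : Pr Y) (x : Pt Y) (a : Pic Y) (ε : ℝ), p.1 ⤳ x.1 → Ample a → 0 ≤ ε →
    Sesh s p.1 x a ε → ∀ D : Div Y, Effective D → D p = 0 →
    mul p.1 x.1 D * ε ^ 2 ≤ i3 s p.1 (cl D) a a
  /-- Let `x` be a closed point and `P` the exceptional divisor of the blow-up of `x`, a projective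
  space of dimension three; choose a plane in `P`, a line in the plane and a point on the
  line.  The valuation vector of a nonzero section of a line bundle is `(m, i, j, k)`: `m` is its
  multiplicity at `x`, `i` the multiplicity of the plane in the surface of degree `m` in `P` given
  by the leading form, `j` the multiplicity of the line in the curve of degree `m - i` in the plane
  cut out by the rest of the surface, `k` the multiplicity of the point in the divisor of degree
  `m - i - j` on the line.  `S a` is the set of these vectors for the sections of `a`.  It has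
  `h^0(a)` elements, because a valuation of maximal rational rank has one-dimensional leaves
  (Lazarsfeld-Mustata 2009, Lemma 1.4), and valuation vectors of products are sums.  The last
  line: some multiple of an ample `a` separates tangent vectors at `x`. -/
  valuation4 : ∀ x : Pt Y, ∃ S : Pic Y → Finset (Fin 4 → ℤ),
    (∀ a, (S a).card = h0 s a) ∧
    (∀ a b, ∀ u ∈ S a, ∀ v ∈ S b, u + v ∈ S (a + b)) ∧
    (∀ a, ∀ v ∈ S a, (∀ i, 0 ≤ v i) ∧ v 1 + v 2 + v 3 ≤ v 0 ∧
      ∃ D : Div Y, Effective D ∧ cl D = a ∧ (mul (genericPoint Y) x.1 D : ℤ) = v 0) ∧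
    ∀ a, Ample a → ∃ k : ℕ, 0 < k ∧ ![0, 0, 0, 0] ∈ S (k • a) ∧ ![1, 0, 0, 0] ∈ S (k • a) ∧
      ![1, 1, 0, 0] ∈ S (k • a) ∧ ![1, 0, 1, 0] ∈ S (k • a) ∧ ![1, 0, 0, 1] ∈ S (k • a)
  /-- Let `p` be a prime divisor and `x` a smooth point of `p` (the other points of `p` are in a closed
  subset `B`), choose a line in the projective plane of the tangent directions of `p` at `x` and a
  point on the line.  The valuation vector of a nonzero section of a line bundle is
  `(b, m, i, j)`: `b` is the multiplicity of `p`, and after the division by the `b`-th power of the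
  equation of `p` the restriction to `p` has multiplicity `m` at `x`, and `i`, `j` are as above.
  The last line: if `a` is ample, then for large `k` the restriction of `k a` to `p` separates
  tangent vectors at `x`, and `k a - p` has a section which is not zero at `x`. -/
  valuation3 : ∀ p : Pr Y, ∃ B : Set Y, IsClosed B ∧ p.1 ∉ B ∧ ∀ x : Pt Y, p.1 ⤳ x.1 → x.1 ∉ B →
    ∃ S : Pic Y → Finset (Fin 4 → ℤ),
      (∀ a, (S a).card = h0 s a) ∧
      (∀ a b, ∀ u ∈ S a, ∀ v ∈ S b, u + v ∈ S (a + b)) ∧
      (∀ a, ∀ v ∈ S a, (∀ i, 0 ≤ v i) ∧ v 2 + v 3 ≤ v 1 ∧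
        ∃ D : Div Y, Effective D ∧ D p = 0 ∧ cl D + v 0 • clp p = a ∧
          (mul p.1 x.1 D : ℤ) = v 1) ∧
      ∀ a, Ample a → ∃ k : ℕ, 0 < k ∧ ![0, 0, 0, 0] ∈ S (k • a) ∧ ![1, 0, 0, 0] ∈ S (k • a) ∧
        ![0, 1, 0, 0] ∈ S (k • a) ∧ ![0, 1, 1, 0] ∈ S (k • a) ∧ ![0, 1, 0, 1] ∈ S (k • a)

/-- The published theorems for the resolution `f : Y ⟶ X` of a minimal model of dimension four. -/
structure Published (t : X ⟶ Spec (.of ℂ)) (f : Y ⟶ X) (K M : Pic Y) (E : Div Y) : Prop where
  numbers : Numbers (f ≫ t)
  positivity : Positivity (f ≫ t)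
  /-- Riemann-Roch and Kodaira vanishing -/
  riemannRoch : ∃ c, IsC2 (f ≫ t) K c
  /-- the image in `X` of a component `p` of `E` has dimension at most one, and so the product of
  `p` and of two line bundles pulled back from `X` is zero -/
  contracted : ∀ p : Pr Y, E p ≠ 0 → ∀ a b c : Pic Y, IsPullback f a → IsPullback f b →
    i4 (f ≫ t) (clp p) a b c = 0
  /-- Miyaoka 1987: the second Chern class of a minimal model has nonnegative product with nef
  line bundles (`X` is smooth in codimension two and `f` is an isomorphism there) -/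
  miyaoka : ∀ a b : Pic Y, IsPullback f a → IsPullback f b → Nef (f ≫ t) a → Nef (f ≫ t) b →
    0 ≤ c2 (f ≫ t) K a b
  /-- Ambro 2004: if the nef dimension of the canonical class of a minimal model of dimension four is
  at most three, that is, if curves of degree zero pass through all points, then the canonical
  class is semiample -/
  ambro : (∀ x : Pt Y, ∃ C : Cv Y, C.1 ⤳ x.1 ∧ i1 (f ≫ t) C.1 M = 0) → Semiample M
  /-- If the canonical class of the minimal model is semiample, then the conjecture of Campana and
  Peternell holds for every smooth projective variety `Z` with the same function field: `κ(A)` is at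
  most the numerical dimension of `K_Z` in the sense of Nakayama 2004, which is a birational
  invariant and is equal to `κ(Z)`. -/
  nakayama : Semiample M → ∀ (Z : Scheme.{0}) [IsIntegral Z] [IsLocallyNoetherian Z]
    (u : Z ⟶ Spec (.of ℂ)), Fourfold u → Birational (f ≫ t) u → CampanaPeternell u

end Pool.AB4
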